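import Pool.Agent.TP2.Final
import Pool.Agent.TP.Final

/-!
# Quadratic twist pencils of hyperelliptic curves over number fields

For every number field `F` and every squarefree polynomial `P` over `F` of degree at least three,
the family of the smooth projective models of the curves `t y ^ 2 = P(x)` over a nonempty open
subset of the `t`-line is arithmetically surjective if and only if it has a section, if and only if
`P` has odd degree or a root in `F`.
-/

open NumberField Polynomial

namespace Pool.Agent.Results.MP_2fb91c_nt.HyperellipticTwists

/-- Half of the degree of `P`, rounded up (the genus of `t y ^ 2 = P(x)` plus one). -/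
def half {F : Type} [Field F] (P : F[X]) : ℕ := (P.natDegree + 1) / 2

/-- The binary form of degree `2 * half P` which dehomogenises to `P`. -/
def form {F : Type} [Field F] (P : F[X]) {L : Type} [Field L] [Algebra F L] (x z : L) : L :=
  ∑ i ∈ Finset.range (2 * half P + 1), algebraMap F L (P.coeff i) * x ^ i * z ^ (2 * half P - i)

/-- The smooth projective model of `t y ^ 2 = P(x)`, that is the curve `t y ^ 2 = form P x z` in
the weighted projective plane with weights `1, half P, 1`, has a point over `L`. -/
def HasPoint {F : Type} [Field F] (P : F[X]) (L : Type) [Field L] [Algebra F L] (t : L) : Prop :=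
  ∃ x y z : L, (x ≠ 0 ∨ z ≠ 0) ∧ t * y ^ 2 = form P x z

/-- The family `t y ^ 2 = P(x)` over the open subset `t ≠ 0`, `h(t) ≠ 0` of the line over `F` is
arithmetically surjective: for every finite extension `L` of the number field `F`, every `L`-point
of the base is the image of an `L`-point of the family. -/
def ArithSurj {F : Type} [Field F] (P h : F[X]) : Prop :=
  ∀ (L : Type) [Field L] [NumberField L] [Algebra F L] (t : L), t ≠ 0 → aeval t h ≠ 0 →
    HasPoint P L t

/-- The generic fibre of the family has a rational point, that is the family has a section. -/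
def HasSection {F : Type} [Field F] (P : F[X]) : Prop := HasPoint P (RatFunc F) RatFunc.X

theorem form_eq {F : Type} [Field F] (P : F[X]) {L : Type} [Field L] [Algebra F L] (x z : L)
    (hz : z ≠ 0) : form P x z = z ^ (2 * half P) * aeval (x / z) P := by
  unfold form
  rw [aeval_eq_sum_range' (n := 2 * half P + 1) (by unfold half; omega), Finset.mul_sum]
  refine Finset.sum_congr rfl fun i hi => ?_
  have hi' : i ≤ 2 * half P := by
    have := Finset.mem_range.1 hi
    omega
  have h1 : z ^ (2 * half P) = z ^ i * z ^ (2 * half P - i) := by
    rw [← pow_add]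
    congr 1
    omega
  rw [h1, div_pow, Algebra.smul_def]
  field_simp

theorem form_zero {F : Type} [Field F] (P : F[X]) {L : Type} [Field L] [Algebra F L] (x : L) :
    form P x 0 = algebraMap F L (P.coeff (2 * half P)) * x ^ (2 * half P) := by
  unfold form
  rw [Finset.sum_range_succ, Nat.sub_self, pow_zero, mul_one]
  rw [Finset.sum_eq_zero, zero_add]
  intro i hi
  have hi' : 2 * half P - i ≠ 0 := by
    have := Finset.mem_range.1 hi
    omega
  rw [zero_pow hi', mul_zero]

theorem hasPoint_of_odd {F : Type} [Field F] (P : F[X]) (hodd : Odd P.natDegree) (L : Type)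
    [Field L] [Algebra F L] (t : L) : HasPoint P L t := by
  refine ⟨1, 0, 0, Or.inl one_ne_zero, ?_⟩
  rw [form_zero, coeff_eq_zero_of_natDegree_lt]
  · simp
  · obtain ⟨k, hk⟩ := hodd
    unfold half
    omega

theorem hasPoint_of_root {F : Type} [Field F] (P : F[X]) (r : F) (hr : P.eval r = 0) (L : Type)
    [Field L] [Algebra F L] (t : L) : HasPoint P L t := by
  refine ⟨algebraMap F L r, 0, 1, Or.inr one_ne_zero, ?_⟩
  rw [form_eq P _ _ one_ne_zero, div_one, aeval_algebraMap_apply, coe_aeval_eq_eval, hr]
  simp

theorem section_iff {F : Type} [Field F] (P : F[X]) (hdeg : 1 ≤ P.natDegree) :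
    HasSection P ↔ Odd P.natDegree ∨ ∃ r : F, P.eval r = 0 := by
  constructor
  · intro h
    by_contra hcon
    rw [not_or, Nat.not_odd_iff_even, not_exists] at hcon
    obtain ⟨heven, hroot⟩ := hcon
    have hP0 : P ≠ 0 := by
      rintro rfl
      simp at hdeg
    have hd : P.natDegree = 2 * half P := by
      obtain ⟨k, hk⟩ := heven
      unfold half
      omega
    obtain ⟨x, y, z, hxz, hxyz⟩ := h
    refine Pool.TP.Final.no_section (F := F) (fun i => P.coeff i) (half P) ?_ x y z hxz ?_
    · intro a b hab
      have h1 : form P a b ≠ 0 := by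
        by_cases hb : b = 0
        · rw [hb, form_zero, ← hd]
          refine mul_ne_zero ?_ (pow_ne_zero _ ?_)
          · exact leadingCoeff_ne_zero.2 hP0
          · rcases hab with h | h
            · exact h
            · exact absurd hb h
        · rw [form_eq P a b hb, coe_aeval_eq_eval]
          exact mul_ne_zero (pow_ne_zero _ hb) (hroot _)
      exact h1
    · rw [hxyz]
      rfl
  · rintro (h | ⟨r, hr⟩)
    · exact hasPoint_of_odd P h _ _
    · exact hasPoint_of_root P r hr _ _

/-- Main theorem. Let `F` be a number field, let `P` be a squarefree polynomial over `F` of degree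
at least three and let `h` be a nonzero polynomial over `F`. The following are equivalent: the
family `t y ^ 2 = P(x)` over `t ≠ 0`, `h(t) ≠ 0` is arithmetically surjective; all its fibres over
the `F`-points of the base have `F`-points; it has a section; `P` has odd degree or a root
in `F`. -/
theorem result (F : Type) [Field F] [NumberField F] (P h : F[X]) (hdeg : 3 ≤ P.natDegree)
    (hsq : Squarefree P) (hh : h ≠ 0) :
    [ArithSurj P h,
      ∀ t : F, t ≠ 0 → h.eval t ≠ 0 → HasPoint P F t,
      HasSection P,
      Odd P.natDegree ∨ ∃ r : F, P.eval r = 0].TFAE := by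
  classical
  have hsec := section_iff P (by omega)
  have key : (∀ t : F, t ≠ 0 → h.eval t ≠ 0 → HasPoint P F t) →
      Odd P.natDegree ∨ ∃ r : F, P.eval r = 0 := by
    intro H
    by_contra hcon
    rw [not_or, Nat.not_odd_iff_even, not_exists] at hcon
    obtain ⟨heven, hroot⟩ := hcon
    have hd : P.natDegree = 2 * half P := by
      obtain ⟨k, hk⟩ := heven
      unfold half
      omega
    obtain ⟨t, ht0, htE, hno⟩ := Pool.TP2.Final.main F P
      (PerfectField.separable_iff_squarefree.2 hsq) (half P) hd (by omega) hroot h.roots.toFinset
    have hht : h.eval t ≠ 0 := by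
      intro h0
      apply htE
      rw [Multiset.mem_toFinset, mem_roots hh]
      exact h0
    obtain ⟨x, y, z, hxz, hxyz⟩ := H t ht0 hht
    exact hno x y z hxz hxyz
  have hback : HasSection P → ArithSurj P h := by
    intro hs L _ _ _ t _ _
    rcases hsec.1 hs with h | ⟨r, hr⟩
    · exact hasPoint_of_odd P h _ _
    · exact hasPoint_of_root P r hr _ _
  have hres : ArithSurj P h → ∀ t : F, t ≠ 0 → h.eval t ≠ 0 → HasPoint P F t := by
    intro H t ht hht
    exact H F t ht (by rwa [coe_aeval_eq_eval])
  tfae_have 1 → 2 := hres
  tfae_have 2 → 4 := key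
  tfae_have 4 → 3 := hsec.2
  tfae_have 3 → 1 := hback
  tfae_finish

end Pool.Agent.Results.MP_2fb91c_nt.HyperellipticTwists
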