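import Pool.Agent.Helper54.KT.Final

/-!
# Kummer twist families of abelian covers of the line over number fields

Let `F` be a number field, `m` at least two, let `I` (nonempty) and `J` be finite sets, and let
`P i` and `R j` be nonzero polynomials over `F` such that the curve `C` with the equations
`y i ^ m = P i (x)`, `z j ^ m = R j (x)` is geometrically irreducible (`GeomIrred`). So `C` is a
cover of the line with the group scheme `μ_m ^ (I ∪ J)`. It is twisted by the elements `t i`:
the curve `C_t` is the smooth projective model of `t i * y i ^ m = P i (x)`,
`z j ^ m = R j (x)`. For `m` prime, and for all `m` in the case of one twisted equation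
`t * y ^ m = P (x)` (cyclic covers), the family of the curves `C_t` over a nonempty open subset of
the torus with the coordinates `t i` is arithmetically surjective (`ArithSurj`) if and only if it
has a section (`HasSection`), if and only if there is exactly one parameter `t` and `C` has an
`F`-rational point which is fixed by the group `μ_m` by which one twists (`HasFixed`). The
definitions are in `Pool/Agent/Helper54/KT/FDefs.lean`.

Points of the smooth projective model are given by Laurent series (`HasPoint`): a smooth
projective curve `Y` over `L` has an `L`-point if and only if one (equivalently each) nonempty
open subset of `Y` has a point over `L((s))`, by properness, and because the completed local ring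
at an `L`-point is `L[[s]]`. An explicit criterion is `Pool.KT.hasPoint_iff`.
-/

open NumberField Polynomial

namespace Pool.Agent.Results.MP_2fb91c_nt.KummerTwists

open Pool.KT

/-- Main theorem. Let `F` be a number field, let `P i` (`i` in `I`, nonempty) and `R j`
(`j` in `J`) be nonzero polynomials over `F` such that `y i ^ m = P i (x)`, `z j ^ m = R j (x)` is
geometrically irreducible, where `m` is prime, or `m` is at least two, `J` is empty and `I` has one
element; the order of the group `μ_m ^ (I ∪ J)` is at least three. Let `h` be a nonzero polynomial
in the variables `t i`. The following are equivalent: the family `t i * y i ^ m = P i (x)`,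
`z j ^ m = R j (x)` over the open set where all `t i` and `h (t)` are not zero is arithmetically
surjective; all its fibres over the `F`-points of the base have `F`-points; it has a section; `I`
has one element and the curve has an `F`-rational point fixed by the twisting group `μ_m`. -/
theorem result (F : Type) [Field F] [NumberField F] (m : ℕ) (hm2 : 2 ≤ m) {I J : Type}
    [Fintype I] [Fintype J] [Nonempty I] (hm : m.Prime ∨ (IsEmpty J ∧ Subsingleton I))
    (_horder : 3 ≤ m ^ (Fintype.card I + Fintype.card J))
    (P : I → F[X]) (R : J → F[X]) (hP : ∀ i, P i ≠ 0) (hR : ∀ j, R j ≠ 0)
    (hirr : GeomIrred m P R) (h : MvPolynomial I F) (hh : h ≠ 0) :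
    List.TFAE [ArithSurj m P R h,
      ∀ t : I → F, (∀ i, t i ≠ 0) → MvPolynomial.eval t h ≠ 0 → HasPoint m P R F t,
      HasSection m P R,
      HasFixed m P R] :=
  main F m hm2 hm P R hP hR hirr h hh

end Pool.Agent.Results.MP_2fb91c_nt.KummerTwists
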